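import Pool.Agent.Work.MP_db9399_brx_helper75.Siz

/-!
# MP_db9399, BRX, part 3 (helper75): from TSPLIT to the classes of OUTX

`stmt_BRX`: pieces with labels (`PcX`), class graphs (`TsX`), clusters (`Clx`), HOST, CLJ give `Cls` of
ox/Interface.lean, for the six classes, the nodes `NI N`, the vertices `OV X`, the real graph of `X`.
-/

set_option autoImplicit false
set_option linter.unusedSectionVars false

namespace Pool.Agent.Work.MP_db9399_brx.helper75

open Finset hiding box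
open Classical
open Pool.Agent.Work.MP_db9399_all (nb)
open Pool.Agent.Work.MP_db9399_da
open Pool.Agent.Work.MP_db9399_xf
open Pool.Agent.Work.MP_db9399_sg (nsd)
open Pool.Agent.Work.MP_db9399_ox (Cls sdg)
open Pool.Agent.Work.MP_db9399_iv
open Pool.Agent.Work.MP_db9399_clj.helper75
open Pool.Agent.Work.MP_db9399_oxa.helper75 (SplO mG Stmt_OXA)

universe u

theorem card_Cx : Fintype.card Cx.{u} = 6 := by
  have h : (univ : Finset Cx.{u}) = {Cx.C 0, Cx.C 1, Cx.C 2, Cx.Q false, Cx.Q true, Cx.R} := by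
    ext κ
    simp only [mem_univ, mem_insert, mem_singleton, true_iff]
    rcases κ with j | i | _
    · fin_cases j <;> simp
    · cases i <;> simp
    · simp
  rw [← card_univ, h]
  rw [card_insert_of_notMem, card_insert_of_notMem, card_insert_of_notMem,
    card_insert_of_notMem, card_insert_of_notMem, card_singleton] <;> simp

theorem sum_Cx (f : Cx.{u} → ℕ) :
    ∑ κ, f κ = f (Cx.C 0) + f (Cx.C 1) + f (Cx.C 2) + f (Cx.Q false) + f (Cx.Q true) + f Cx.R := by
  have h : (univ : Finset Cx.{u}) = {Cx.C 0, Cx.C 1, Cx.C 2, Cx.Q false, Cx.Q true, Cx.R} := by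
    ext κ
    simp only [mem_univ, mem_insert, mem_singleton, true_iff]
    rcases κ with j | i | _
    · fin_cases j <;> simp
    · cases i <;> simp
    · simp
  rw [h, sum_insert, sum_insert, sum_insert, sum_insert, sum_insert, sum_singleton]
  · ring
  all_goals simp

/-- all classes are large -/
theorem sha_lo {πk : ℝ} {d : ℕ} {D : Cx.{u} → ℕ} (h1 : 1 / 4 ≤ πk) (h2 : πk < 1 / 3)
    (h : ShaX πk d D) (κ : Cx.{u}) :
    D κ ≤ d ∧ (d : ℝ) ≤ 200 / (1 - 3 * πk) * D κ := by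
  have hp : 0 < 1 - 3 * πk := by linarith
  have hd : (0 : ℝ) ≤ d := Nat.cast_nonneg _
  have hs := h.sum
  rw [sum_Cx] at hs
  have hsR : (D (Cx.C 0) : ℝ) + D (Cx.C 1) + D (Cx.C 2) + D (Cx.Q false) + D (Cx.Q true) +
      D Cx.R = d := by exact_mod_cast hs
  have c0 := abs_le.1 (h.C 0)
  have c1 := abs_le.1 (h.C 1)
  have c2 := abs_le.1 (h.C 2)
  have q0 := abs_le.1 (h.Q false)
  have q1 := abs_le.1 (h.Q true)
  have hm : 0 ≤ (1 - 3 * πk) * d := by positivity
  have hlo : (1 - 3 * πk) / 200 * d ≤ D κ := by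
    rcases κ with j | i | _
    · have hj := abs_le.1 (h.C j)
      nlinarith
    · have hi := abs_le.1 (h.Q i)
      nlinarith
    · nlinarith
  refine ⟨?_, ?_⟩
  · rcases κ with j | i | _
    · fin_cases j <;> simp only [Fin.zero_eta, Fin.mk_one, Fin.reduceFinMk] <;> omega
    · cases i <;> omega
    · omega
  · rw [div_mul_eq_mul_div, le_div_iff₀ hp]
    nlinarith

theorem card_fib {I I' : Type u} [Fintype I] (pr : I → I') (n : I') (A : Finset I)
    (h : ∀ i, pr i = n → i ∈ A) : (univ.filter fun i => pr i = n).card ≤ A.card :=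
  card_le_card fun i hi => h i (mem_filter.1 hi).2

section spl

variable {V : Type u} [Fintype V] {N J : ℕ} {X : XD V N J}

/-- **The hypotheses of OXA.** -/
theorem splO {πk c t CC ρ0 MS β : ℝ} {C g z θk θ' η a : ℝ} {M : ℕ} {S : Fin J → Scl}
    {G : SimpleGraph V} {d : ℕ} {D : Cx.{u} → ℕ} {H : Cx.{u} → SimpleGraph V}
    {Ex : Cx.{u} → Finset V} (h1 : 1 / 4 ≤ πk) (h2 : πk < 1 / 3) (hC : 1 ≤ C)
    (hη : 0 ≤ η) (hη1 : η ≤ 1 / 100) (hθk : θk ≤ 1 / 100) (hd : 0 < d)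
    (hζ : ∀ s, 200 / (1 - 3 * πk) * (S s).ζ ≤ min β (1 / 8))
    (hθ : 200 / (1 - 3 * πk) * (θ' + 2 * η) ≤ min β (1 / 8))
    (hX : PcX C g z θk θ' η a M S G d X) (hk : ∀ v ∈ X.Hv, InT X Ty.K v) (hD : ShaX πk d D)
    (hT : TsX c t CC (ρ0 / 2) MS G d X D H Ex) :
    SplO G (Bkx G X) H (blx X) (opx X) (ndx X) (MP_db9399_iv.box X) prx Ex d D MS β
      (200 / (1 - 3 * πk)) (C * (200 / (1 - 3 * πk))) ρ0 c (c * t * d / 2) (t * d)
      (c * t * d ^ 2 / 2) (t * d ^ 2) (t * d) (t * d ^ 2) := by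
  have hp : 0 < 1 - 3 * πk := by linarith
  have hdr : (0 : ℝ) < d := by exact_mod_cast hd
  have hCD : 0 < 200 / (1 - 3 * πk) := by positivity
  have hD1 : ∀ κ, 1 ≤ D κ := by
    intro κ
    have h3 := (sha_lo h1 h2 hD κ).2
    by_contra h4
    have h5 : D κ = 0 := by omega
    rw [h5] at h3
    push_cast at h3
    linarith
  have hlgt : ∀ κ v, blx X v ≠ none →
      ((nb (H κ) v).card : ℝ) ≤ min β (1 / 8) * D κ := by
    intro κ v hv
    have h3 := real_le hX.toPcD hη (by linarith) hk (fun h => hv ((blx_none hX.emp).2 h))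
      (hT.HG κ)
    have h4 := (sha_lo h1 h2 hD κ).2
    have hDn : (0 : ℝ) ≤ D κ := Nat.cast_nonneg _
    refine h3.trans (max_le ?_ ?_)
    · by_cases h5 : 0 ≤ (S (X.sc (X.P.pc v))).ζ
      · calc (S (X.sc (X.P.pc v))).ζ * d ≤ (S (X.sc (X.P.pc v))).ζ *
              (200 / (1 - 3 * πk) * D κ) := mul_le_mul_of_nonneg_left h4 h5
          _ = 200 / (1 - 3 * πk) * (S (X.sc (X.P.pc v))).ζ * D κ := by ring
          _ ≤ _ := mul_le_mul_of_nonneg_right (hζ _) hDn
      · have h6 : (S (X.sc (X.P.pc v))).ζ * d ≤ 0 :=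
          mul_nonpos_of_nonpos_of_nonneg (by linarith) hdr.le
        have h7 : (0 : ℝ) ≤ (nb (H κ) v).card := Nat.cast_nonneg _
        have h8 : (0 : ℝ) ≤ (θ' + 2 * η) * d ∨ (θ' + 2 * η) * d < 0 := le_or_gt _ _
        -- the maximum is nonnegative
        rcases h8 with h8 | h8
        · have h9 : 0 ≤ θ' + 2 * η := by
            by_contra h10
            have : (θ' + 2 * η) * d < 0 := mul_neg_of_neg_of_pos (by linarith) hdr
            linarith
          have h10 : 0 ≤ 200 / (1 - 3 * πk) * (θ' + 2 * η) := by positivity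
          have h11 : 0 ≤ min β (1 / 8) * D κ := mul_nonneg (h10.trans hθ) hDn
          linarith
        · have h9 := h3.trans_eq (max_eq_left (by
            have : (S (X.sc (X.P.pc v))).ζ * d ≤ 0 := h6
            by_contra h10
            push Not at h10
            rw [max_eq_right h10.le] at h3
            linarith))
          have h10 : (S (X.sc (X.P.pc v))).ζ * d < 0 :=
            mul_neg_of_neg_of_pos (by linarith) hdr
          linarith
    · by_cases h5 : 0 ≤ θ' + 2 * η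
      · calc (θ' + 2 * η) * d ≤ (θ' + 2 * η) * (200 / (1 - 3 * πk) * D κ) :=
              mul_le_mul_of_nonneg_left h4 h5
          _ = 200 / (1 - 3 * πk) * (θ' + 2 * η) * D κ := by ring
          _ ≤ _ := mul_le_mul_of_nonneg_right hθ hDn
      · have h6 : (θ' + 2 * η) * d < 0 := mul_neg_of_neg_of_pos (by linarith) hdr
        have h7 : (0 : ℝ) ≤ (nb (H κ) v).card := Nat.cast_nonneg _
        have h8 : 0 ≤ (S (X.sc (X.P.pc v))).ζ := by
          by_contra h9
          have h10 : (S (X.sc (X.P.pc v))).ζ * d < 0 :=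
            mul_neg_of_neg_of_pos (by linarith) hdr
          have h11 := max_lt h10 h6
          linarith
        have h9 : 0 ≤ 200 / (1 - 3 * πk) * (S (X.sc (X.P.pc v))).ζ := by positivity
        have h10 : 0 ≤ min β (1 / 8) * D κ := mul_nonneg (h9.trans (hζ _)) hDn
        linarith
  refine ⟨?_, hT.shr, hT.dis, ?_, ?_, ?_, ?_, ?_, hT.bal, ?_, ?_, ?_, sha_lo h1 h2 hD, ?_⟩
  · exact fun κ => blx_ok hX.reg hX.emp (hT.HG κ) (hT.typ κ)
  · intro κ x hx hxE
    refine hT.deg κ x ?_ hxE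
    rw [← OO_blx hX.emp]
    unfold OO
    rw [mem_filter]
    exact ⟨mem_univ _, hx⟩
  · intro κ x hx
    have hxO : x ∈ OV X := by
      rw [← OO_blx hX.emp]
      unfold OO
      rw [mem_filter]
      exact ⟨mem_univ _, hx⟩
    by_cases hxE : x ∈ Ex κ
    · have := hT.dex κ x hxE
      omega
    · have := hT.deg κ x hxO hxE
      omega
  · intro κ v
    have h3 := hT.exc κ v
    have h4 : ((nb (H κ) v).filter fun x => x ∈ Ex κ) = nb (H κ) v ∩ Ex κ := by
      ext x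
      rw [mem_filter, mem_inter]
    rw [h4]
    exact h3
  · intro κ v hv
    exact (hlgt κ v hv).trans (mul_le_mul_of_nonneg_right (min_le_left _ _) (Nat.cast_nonneg _))
  · intro κ v hv
    have h3 := (hlgt κ v hv).trans
      (mul_le_mul_of_nonneg_right (min_le_right _ _) (Nat.cast_nonneg _))
    have h4 : 8 * ((nb (H κ) v).card : ℝ) ≤ D κ := by linarith
    exact_mod_cast h4
  · intro κ i s
    have h3 : ((nsd (ndx X κ) i s).card : ℝ) ≤ (pV X.P i.down.1).card := by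
      exact_mod_cast card_le_card nsd_sub
    have h4 := pV_le hX.toPcD (by linarith) i.down.1
    have h5 := (sha_lo h1 h2 hD κ).2
    calc ((nsd (ndx X κ) i s).card : ℝ) ≤ C * d := h3.trans h4
      _ ≤ C * (200 / (1 - 3 * πk) * D κ) := mul_le_mul_of_nonneg_left h5 (by linarith)
      _ = _ := by ring
  · rintro κ ⟨i, s⟩ b hb
    exact blk_le hX hη hη1 hθk hk hb (hD1 κ)
  · intro n
    have h3 : ∀ i : NI.{u} N, prx i = n →
        i ∈ ({⟨(n.down, false)⟩, ⟨(n.down, true)⟩} : Finset (NI.{u} N)) := by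
      rintro ⟨⟨m, l⟩⟩ h
      have h4 : m = n.down := congrArg ULift.down h
      rw [mem_insert, mem_singleton]
      cases l
      · left
        rw [h4]
      · right
        rw [h4]
    exact (card_fib _ _ _ h3).trans card_le_two
  · rw [card_Cx]
    have h3 : (200 : ℝ) ≤ 200 / (1 - 3 * πk) := by
      rw [le_div_iff₀ hp]
      nlinarith
    push_cast
    linarith

end spl

/-- **BRX.** `κ` small: scales `ζ`, constants `θ'`, `η` of the pieces, light threshold `aC` of the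
clusters, scale `t` of the shares, `g'` against the scale `gC` of the clusters. -/
def Stmt_BRX : Prop :=
  ∀ πk MS δ β ρ0 C c : ℝ, 1 / 4 ≤ πk → πk < 1 / 3 → 1 ≤ MS → 0 < δ → 0 < β → 0 < ρ0 → ρ0 ≤ 1 →
    1 ≤ C → 0 < c → c ≤ 1 → ∃ (κ : ℝ) (d0 : ℕ), 0 < κ ∧ κ ≤ 1 ∧
    ∀ {V : Type u} [Fintype V] {N J : ℕ} (G : SimpleGraph V) (d : ℕ) (X : XD V N J)
      (D r : Cx.{u} → ℕ) (H : Cx.{u} → SimpleGraph V) (Ex : Cx.{u} → Finset V)
      (S : Fin J → Scl) (M : ℕ) (g z θk θ' η a' a g' t CC ζ aC gC : ℝ)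
      (Cs : Finset (Finset V)), d0 ≤ d → θk ≤ 1 / 100 → 0 ≤ η → η ≤ κ → θ' ≤ κ →
      (∀ s, (S s).ζ ≤ κ) → ζ ≤ 1 / 8 → 0 < aC → aC ≤ κ → 0 < gC → gC ≤ 1 →
      0 ≤ t → t ≤ κ * gC ^ 2 → 0 ≤ g' → g' ≤ κ * gC ^ 2 →
      PcX C g z θk θ' η a' M S G d X → (∀ v ∈ X.Hv, InT X Ty.K v) →
      (∀ Q ∈ Cs, ((Q.filter fun v => v ∈ X.P.V0 ∨ v ∈ X.Hv).card : ℝ) ≤ κ * d) →
      MP_db9399_xc.helper38.Clx G d (3 * MS) ζ aC gC Cs → ShaX πk d D →
      TsX c t CC (ρ0 / 2) MS G d X D H Ex →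
      (∀ j, Odd (r j) ∧ 2 * (D j : ℝ) ^ (1 - a) ≤ r j ∧
        (r j : ℝ) + 2 ≤ (D j : ℝ) ^ (1 - a / 3)) →
      (∀ j, (d : ℝ) ^ (1 - a) ≤ r j) →
      ∃ (Y : Type u) (_ : Fintype Y) (Gh : Cx.{u} → SimpleGraph (V ⊕ Y))
        (A Ex' : Cx.{u} → Finset (V ⊕ Y)) (nd : Cx.{u} → V ⊕ Y → Option (NI.{u} N × Bool)),
        (∀ j v, nd j (Sum.inl v) = ndx X j v) ∧
        (∀ j i s, (nsd (nd j) i s).card = mG (ndx X) D j i) ∧
        Cls (fun j => (H j).map Function.Embedding.inl) Gh ((OV X).map Function.Embedding.inl)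
          (univ.map Function.Embedding.inl) A Ex' nd prx d D r a MS g' δ β (1 / 4)
          (200 / (1 - 3 * πk)) (20 + 8 * (C * (200 / (1 - 3 * πk)))) ρ0

theorem stmt_BRX : Stmt_BRX.{u} := by
  intro πk MS δ β ρ0 C c h1 h2 hMS hδ hβ hρ hρ1 hC hc hc1
  have hp : 0 < 1 - 3 * πk := by linarith
  have hCD1 : (1 : ℝ) ≤ 200 / (1 - 3 * πk) := by
    rw [le_div_iff₀ hp]
    linarith
  have hCD : 0 < 200 / (1 - 3 * πk) := by linarith
  have hCQ : 1 ≤ C * (200 / (1 - 3 * πk)) := by nlinarith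
  obtain ⟨κ, d0, hκ, hκ1, main⟩ := MP_db9399_oxa.helper75.stmt_OXA.{u} MS δ
    (200 / (1 - 3 * πk)) (C * (200 / (1 - 3 * πk))) c hMS hδ hCD1 hCQ hc hc1
  have hm : 0 < min β (1 / 8) := lt_min hβ (by norm_num)
  refine ⟨min κ (min (1 / 100) (min β (1 / 8) / (3 * (200 / (1 - 3 * πk))))), max d0 1,
    lt_min hκ (lt_min (by norm_num) (by positivity)), (min_le_left _ _).trans hκ1, ?_⟩
  set κ' := min κ (min (1 / 100) (min β (1 / 8) / (3 * (200 / (1 - 3 * πk))))) with hκ'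
  have k1 : κ' ≤ κ := min_le_left _ _
  have k2 : κ' ≤ 1 / 100 := (min_le_right _ _).trans (min_le_left _ _)
  have k3 : κ' ≤ min β (1 / 8) / (3 * (200 / (1 - 3 * πk))) :=
    (min_le_right _ _).trans (min_le_right _ _)
  have k4 : 200 / (1 - 3 * πk) * (3 * κ') ≤ min β (1 / 8) := by
    rw [le_div_iff₀ (by positivity)] at k3
    linarith
  intro V _ N J G d X D r H Ex S M g z θk θ' η a' a g' t CC ζ aC gC Cs hd hθk hη hη1 hθ' hζ hζC
    haC haC1 hgC hgC1 ht0 ht hg0 hg hX hk hvh hCl hD hT hr hrd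
  have hd1 : 0 < d := lt_of_lt_of_le one_pos ((le_max_right _ _).trans hd)
  have hsp := splO (β := β) (ρ0 := ρ0) h1 h2 hC hη (hη1.trans k2) hθk hd1
    (fun s => (mul_le_mul_of_nonneg_left (show (S s).ζ ≤ 3 * κ' by
      have := hζ s
      have : 0 < κ' := lt_min hκ (lt_min (by norm_num) (by positivity))
      linarith) hCD.le).trans k4)
    ((mul_le_mul_of_nonneg_left (show θ' + 2 * η ≤ 3 * κ' by linarith) hCD.le).trans k4)
    hX hk hD hT
  have hdr : (0 : ℝ) ≤ d := Nat.cast_nonneg _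
  have hTl : Tls d c t (c * t * d / 2) (t * d) (c * t * d ^ 2 / 2) (t * d ^ 2) (t * d)
      (t * d ^ 2) := by
    have htd : 0 ≤ t * d := by positivity
    have htd2 : 0 ≤ t * d ^ 2 := by positivity
    refine ⟨by positivity, htd, by positivity, htd2, htd, htd2, by linarith, by linarith, ?_,
      le_rfl, ?_, le_rfl, le_rfl, le_rfl⟩
    · nlinarith
    · nlinarith
  have hvh' : ∀ Q ∈ Cs, ((Q ∩ OO (blx X) ∩ MP_db9399_xc.helper38.lgt G d aC Cs).card : ℝ) ≤
      κ * d := by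
    intro Q hQ
    refine le_trans ?_ ((hvh Q hQ).trans (mul_le_mul_of_nonneg_right k1 hdr))
    refine Nat.cast_le.2 (card_le_card fun v hv => ?_)
    rw [mem_inter, mem_inter, OO_blx hX.emp] at hv
    rw [mem_filter]
    refine ⟨hv.1.1, ?_⟩
    have h3 := hv.1.2
    unfold OV at h3
    rw [mem_filter] at h3
    exact h3.2
  obtain ⟨Y, iY, Gh, A, Ex', nd, e1, e2, e3⟩ := main G (Bkx G X) H (blx X) (opx X) (ndx X)
    (MP_db9399_iv.box X) prx Ex d D r a β ρ0 t g' _ _ _ _ _ _ ζ aC gC Cs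
    ((le_max_left _ _).trans hd) hβ.le hρ hρ1 hζC haC (haC1.trans k1) hgC hgC1
    (ht.trans (mul_le_mul_of_nonneg_right k1 (by positivity))) hg0
    (hg.trans (mul_le_mul_of_nonneg_right k1 (by positivity))) hsp hTl hCl hvh' hr hrd
  refine ⟨Y, iY, Gh, A, Ex', nd, e1, e2, ?_⟩
  rw [← OO_blx hX.emp]
  exact e3

end Pool.Agent.Work.MP_db9399_brx.helper75
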