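import Pool.Agent.Work.MP_db9399_iv.TSplit
import Pool.Agent.Work.MP_db9399_oxa_helper75.OXA

/-!
# MP_db9399, BRX, part 1 (helper75): blocks and nodes of the pieces satisfy `Blx`
-/

set_option autoImplicit false
set_option linter.unusedSectionVars false

namespace Pool.Agent.Work.MP_db9399_brx.helper75

open Finset hiding box
open Classical
open Pool.Agent.Work.MP_db9399_all (nb)
open Pool.Agent.Work.MP_db9399_da
open Pool.Agent.Work.MP_db9399_xf
open Pool.Agent.Work.MP_db9399_sg (nsd)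
open Pool.Agent.Work.MP_db9399_iv
open Pool.Agent.Work.MP_db9399_clj.helper75

universe u

variable {V : Type u} {N J : ℕ} {X : XD V N J}

theorem bx_iff {n : Fin N} {s : Bool} {b : BX X} :
    bx X n s = some b ↔ b.down.1.1 = n ∧ (X.P.ty n = Ty.B → b.down.1.2 = s) := by
  obtain ⟨⟨⟨m, r⟩, h1, h2⟩⟩ := b
  simp only
  unfold bx
  constructor
  · intro h
    split_ifs at h with h3 h4
    · have h5 := Option.some.inj h
      have h6 := congrArg (fun b => b.down.1) h5
      simp only at h6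
      have h7 := Prod.mk.inj h6
      exact ⟨h7.1.symm, fun _ => h7.2.symm⟩
    · have h5 := Option.some.inj h
      have h6 := congrArg (fun b => b.down.1) h5
      simp only at h6
      have h7 := Prod.mk.inj h6
      exact ⟨h7.1.symm, fun h => absurd h h4⟩
  · rintro ⟨rfl, h4⟩
    simp only at h1 h2
    rw [dif_pos h1]
    by_cases h5 : X.P.ty m = Ty.B
    · have h6 := h4 h5
      subst h6
      rw [dif_pos h5]
    · rw [dif_neg h5]
      rcases h2 with h2 | h2
      · exact absurd h2 h5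
      · subst h2
        rfl

theorem bx_ne {n : Fin N} {s : Bool} (h : X.P.ty n ≠ Ty.E) : ∃ b, bx X n s = some b := by
  unfold bx
  rw [dif_pos h]
  exact ⟨_, rfl⟩

theorem bx_E {n : Fin N} {s : Bool} (h : X.P.ty n = Ty.E) : bx X n s = none := by
  unfold bx
  rw [dif_neg (fun h' => h' h)]

theorem ty_ne (he : ∀ n, X.P.ty n = Ty.E → IsEmpty (Ts X.P n)) {v : V} (hv : v ∉ X.P.V0) :
    X.P.ty (X.P.pc v) ≠ Ty.E := fun h => (he _ h).false ⟨v, hv, rfl⟩

theorem blx_none (he : ∀ n, X.P.ty n = Ty.E → IsEmpty (Ts X.P n)) {v : V} :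
    blx X v = none ↔ InO X v := by
  unfold blx
  constructor
  · intro h
    by_contra h1
    rw [if_neg h1] at h
    obtain ⟨b, hb⟩ := bx_ne (X := X) (s := X.P.sd v) (ty_ne he (fun h2 => h1 (Or.inl h2)))
    rw [hb] at h
    cases h
  · intro h
    rw [if_pos h]

theorem blx_iff {v : V} {b : BX X} : blx X v = some b ↔ ¬ InO X v ∧ b.down.1.1 = X.P.pc v ∧
    (X.P.ty (X.P.pc v) = Ty.B → b.down.1.2 = X.P.sd v) := by
  unfold blx
  by_cases h : InO X v
  · rw [if_pos h]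
    constructor
    · intro h1
      cases h1
    · intro h1
      exact absurd h h1.1
  · rw [if_neg h, bx_iff]
    exact ⟨fun h1 => ⟨h, h1⟩, fun h1 => h1.2⟩

theorem opx_opx (b : BX X) : opx X (opx X b) = b := by
  obtain ⟨⟨⟨m, r⟩, h1, h2⟩⟩ := b
  unfold opx
  simp only
  by_cases h : X.P.ty m = Ty.B
  · simp [h]
  · simp [h]

theorem opx_fst (b : BX X) : (opx X b).down.1.1 = b.down.1.1 := by
  unfold opx
  split_ifs <;> rfl

theorem opx_snd (b : BX X) (h : X.P.ty b.down.1.1 = Ty.B) :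
    (opx X b).down.1.2 = !b.down.1.2 := by
  unfold opx
  rw [dif_pos h]

theorem bx_not (n : Fin N) (s : Bool) : bx X n (!s) = (bx X n s).map (opx X) := by
  by_cases hE : X.P.ty n = Ty.E
  · rw [bx_E hE, bx_E hE]
    rfl
  · obtain ⟨b, hb⟩ := bx_ne (X := X) (s := s) hE
    rw [hb]
    show _ = some (opx X b)
    rw [bx_iff] at hb ⊢
    refine ⟨by rw [opx_fst, hb.1], fun h => ?_⟩
    rw [opx_snd b (by rw [hb.1]; exact h), hb.2 h]

theorem ndx_iff {κ : Cx.{u}} {v : V} {i : NI.{u} N} {s : Bool} :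
    ndx X κ v = some (i, s) ↔ ¬ (InO X v ∨ (∃ j, κ = Cx.C j ∧ X.P.ty (X.P.pc v) = Ty.K ∧
      X.P.th v = j) ∨ ((X.P.ty (X.P.pc v) = Ty.N ∨ X.P.ty (X.P.pc v) = Ty.B) ∧
        κ = Cx.Q (X.P.pt v))) ∧ i.down.1 = X.P.pc v ∧ i.down.2 = ptx X v ∧ s = X.P.sd v := by
  obtain ⟨⟨n, l⟩⟩ := i
  unfold ndx
  split_ifs with h
  · constructor
    · intro h1
      cases h1
    · intro h1
      exact absurd h h1.1
  · constructor
    · intro h1
      have h2 := Prod.mk.inj (Option.some.inj h1)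
      have h3 := Prod.mk.inj (congrArg ULift.down h2.1)
      exact ⟨h, h3.1.symm, h3.2.symm, h2.2.symm⟩
    · rintro ⟨-, h1, h2, h3⟩
      simp only at h1 h2
      rw [h1, h2, h3]

theorem usd_ndx {κ : Cx.{u}} {v : V} {i : NI.{u} N} {s : Bool} (h : ndx X κ v = some (i, s)) :
    usd X κ i.down.1 i.down.2 := by
  rw [ndx_iff] at h
  obtain ⟨h1, h2, h3, -⟩ := h
  unfold usd
  rw [h2, h3]
  unfold ptx
  by_cases hT : X.P.ty (X.P.pc v) = Ty.N ∨ X.P.ty (X.P.pc v) = Ty.B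
  · rw [if_pos hT]
    exact Or.inl ⟨hT, fun h4 => h1 (Or.inr (Or.inr ⟨hT, h4⟩))⟩
  · rw [if_neg hT]
    exact Or.inr ⟨fun h4 => hT (Or.inl h4), fun h4 => hT (Or.inr h4), rfl⟩

theorem box_iff {κ : Cx.{u}} {i : NI.{u} N} {s : Bool} {b : BX X} :
    box X κ (i, s) = some b ↔ usd X κ i.down.1 i.down.2 ∧ b.down.1.1 = i.down.1 ∧
      (X.P.ty i.down.1 = Ty.B → b.down.1.2 = s) := by
  unfold box
  split_ifs with h
  · rw [bx_iff]
    exact ⟨fun h1 => ⟨h, h1⟩, fun h1 => h1.2⟩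
  · constructor
    · intro h1
      cases h1
    · intro h1
      exact absurd h1.1 h

variable [Fintype V]

/-- **`Blx`.** -/
theorem blx_ok {G : SimpleGraph V} {d : ℕ} {H : SimpleGraph V} {κ : Cx.{u}}
    (hr : ∀ v, (nb G v).card = d) (he : ∀ n, X.P.ty n = Ty.E → IsEmpty (Ts X.P n))
    (hG : ∀ v w, H.Adj v w → G.Adj v w ∧ ¬ (Bkx G X).Adj v w)
    (ht : ∀ v w, H.Adj v w → InO X v ∨ ndx X κ v ≠ none) :
    Blx G (Bkx G X) H d (blx X) (opx X) (ndx X κ) (box X κ) := by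
  refine ⟨hr, opx_opx, ?_, ?_, hG, ?_, ?_, ?_, ?_⟩
  · intro v w h
    exact h.1.1
  · intro v w h
    obtain ⟨⟨-, h1, h2, h3, h4⟩, h5, h6⟩ := h
    obtain ⟨b, hb⟩ : ∃ b, blx X v = some b := by
      rcases h : blx X v with _ | b
      · exact absurd ((blx_none he).1 h) h5
      · exact ⟨b, rfl⟩
    refine ⟨b, hb, ?_⟩
    rw [blx_iff] at hb ⊢
    refine ⟨h6, by rw [opx_fst, hb.2.1, h3], fun h7 => ?_⟩
    rw [← h3] at h7
    rw [opx_snd b (by rw [hb.2.1]; exact h7), hb.2.2 h7]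
    have h8 := h4 h7
    revert h8
    cases X.P.sd v <;> cases X.P.sd w <;> simp
  · intro v w h
    rcases ht v w h with h1 | h1
    · exact Or.inl ((blx_none he).2 h1)
    · exact Or.inr h1
  · rintro v ⟨i, s⟩ h
    have hu := usd_ndx h
    rw [ndx_iff] at h
    obtain ⟨h1, h2, h3, h4⟩ := h
    have h5 : ¬ InO X v := fun h => h1 (Or.inl h)
    obtain ⟨b, hb⟩ : ∃ b, blx X v = some b := by
      rcases h : blx X v with _ | b
      · exact absurd ((blx_none he).1 h) h5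
      · exact ⟨b, rfl⟩
    refine ⟨b, ?_, hb⟩
    rw [blx_iff] at hb
    rw [box_iff]
    refine ⟨hu, by rw [hb.2.1, h2], fun h6 => ?_⟩
    rw [h2] at h6
    rw [hb.2.2 h6, h4]
  · intro i s
    unfold box
    show (if usd X κ i.down.1 i.down.2 then bx X i.down.1 (!s) else none) =
      (if usd X κ i.down.1 i.down.2 then bx X i.down.1 s else none).map (opx X)
    split_ifs
    · exact bx_not _ _
    · rfl
  · rintro b
    by_cases hT : X.P.ty b.down.1.1 = Ty.N ∨ X.P.ty b.down.1.1 = Ty.B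
    · obtain ⟨l, hl⟩ : ∃ l, κ ≠ Cx.Q l := by
        by_cases h : κ = Cx.Q false
        · refine ⟨true, fun h1 => ?_⟩
          rw [h] at h1
          injection h1 with h2
          cases h2
        · exact ⟨false, h⟩
      refine ⟨(⟨(b.down.1.1, l)⟩, b.down.1.2), ?_⟩
      rw [box_iff]
      exact ⟨Or.inl ⟨hT, hl⟩, rfl, fun _ => rfl⟩
    · refine ⟨(⟨(b.down.1.1, false)⟩, b.down.1.2), ?_⟩
      rw [box_iff]
      exact ⟨Or.inr ⟨fun h => hT (Or.inl h), fun h => hT (Or.inr h), rfl⟩, rfl, fun _ => rfl⟩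

theorem OO_blx (he : ∀ n, X.P.ty n = Ty.E → IsEmpty (Ts X.P n)) : OO (blx X) = OV X := by
  unfold OO OV
  ext v
  rw [mem_filter, mem_filter, blx_none he]

end Pool.Agent.Work.MP_db9399_brx.helper75
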