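import Pool.Agent.Work.MP_db9399_brx_helper75.BRX

/-!
# MP_db9399, BRX, part 4 (helper75): covering vertices and heavy members have many light neighbours
in every class
-/

set_option autoImplicit false
set_option linter.unusedSectionVars false

namespace Pool.Agent.Work.MP_db9399_brx.helper75

open Finset hiding box
open Classical
open Pool.Agent.Work.MP_db9399_all (nb)
open Pool.Agent.Work.MP_db9399_da
open Pool.Agent.Work.MP_db9399_xf
open Pool.Agent.Work.MP_db9399_sg (nsd)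
open Pool.Agent.Work.MP_db9399_iv
open Pool.Agent.Work.MP_db9399_clj.helper75

universe u

variable {V : Type u} {N J : ℕ} {X : XD V N J} [Fintype V]
  {C g z θk θ' η a : ℝ} {M : ℕ} {S : Fin J → Scl} {G : SimpleGraph V} {d : ℕ}

/-- the side of a piece of type B has almost `d` vertices -/
theorem sV_ge (hX : PcD C g z θk θ' η a M S G d X) {n : Fin N} (hB : X.P.ty n = Ty.B) (β : Bool) :
    (1 - (S (X.sc n)).ζ) * d ≤ ((sV X.P n β).card : ℝ) := by
  have hne : ∀ γ, (sV X.P n γ).Nonempty := by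
    intro γ
    obtain ⟨v, hv⟩ := hX.bN n hB
    have h1 := hX.bE n hB
    unfold pV at hv
    rw [mem_filter] at hv
    have h2 : v ∈ sV X.P n (X.P.sd v) := by
      unfold sV
      rw [mem_filter]
      exact ⟨mem_univ _, hv.2.1, hv.2.2, rfl⟩
    have h3 : 0 < (sV X.P n (X.P.sd v)).card := card_pos.2 ⟨v, h2⟩
    rw [← card_pos]
    cases γ <;> cases h : X.P.sd v <;> rw [h] at h3 <;> omega
  obtain ⟨v, hv⟩ := hne (!β)
  unfold sV at hv
  rw [mem_filter] at hv
  obtain ⟨-, h1, h2, h3⟩ := hv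
  have h4 := hX.thd v (Or.inr ⟨h1, by rw [h2]; exact hB⟩)
  rw [h2] at h4
  have h5 : nb G v ⊆ nb (thin G X.P) v ∪ sV X.P n β := by
    intro w hw
    rw [mem_nb'] at hw
    rw [mem_union, mem_nb']
    by_cases h6 : (bulk G X.P).Adj v w
    · right
      unfold sV
      rw [mem_filter]
      have h7 := h6.2.2.2.2 (by rw [h2]; exact hB)
      refine ⟨mem_univ _, h6.2.2.1, by rw [← h6.2.2.2.1, h2], ?_⟩
      rw [h3] at h7
      revert h7
      cases X.P.sd w <;> cases β <;> simp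
    · exact Or.inl ⟨hw, h6⟩
  have h6 : ((nb G v).card : ℝ) ≤ (nb (thin G X.P) v).card + (sV X.P n β).card := by
    exact_mod_cast (card_le_card h5).trans (card_union_le _ _)
  rw [hX.reg v] at h6
  linarith

/-- a vertex with many neighbours in a block has many light neighbours in every class -/
theorem co_aux {c t t2 t3 t4 t5 t6 MS : ℝ} {H : SimpleGraph V} {κ : Cx.{u}}
    (he : ∀ n, X.P.ty n = Ty.E → IsEmpty (Ts X.P n)) (hc : 0 < c) (ht : t ≤ 1 / 4)
    (hS : Shr G (Bkx G X) H d (blx X) (ndx X κ) (MP_db9399_iv.box X κ) c (c * t * d / 2)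
      t2 t3 t4 t5 t6 MS)
    (hbex : ∀ b : BX X, ∃ p, MP_db9399_iv.box X κ p = some b) {x : V} (hx : x ∈ OV X)
    (b : BX X) (hb : 3 / 4 * (d : ℝ) ≤ ((nb G x ∩ blk (blx X) b).card : ℝ)) :
    (d : ℝ) ≤ 4 / c * ((nb H x \ OV X).card : ℝ) := by
  obtain ⟨p, hp⟩ := hbex b
  have h1 := hS.f1 x (by rw [OO_blx he]; exact hx) p b hp
  unfold nB at h1
  have h2 : nb H x ∩ nsd (ndx X κ) p.1 p.2 ⊆ nb H x \ OV X := by
    intro w hw
    rw [mem_inter] at hw
    rw [mem_sdiff]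
    refine ⟨hw.1, fun h3 => ?_⟩
    have h4 := hw.2
    rw [mem_nsd, ndx_iff] at h4
    unfold OV at h3
    rw [mem_filter] at h3
    exact h4.1 (Or.inl h3.2)
  have h3 : ((nb H x ∩ nsd (ndx X κ) p.1 p.2).card : ℝ) ≤ (nb H x \ OV X).card := by
    exact_mod_cast card_le_card h2
  have hd : (0 : ℝ) ≤ d := Nat.cast_nonneg _
  have h4 : c * (3 / 4 * (d : ℝ)) ≤ c * ((nb G x ∩ blk (blx X) b).card : ℝ) :=
    mul_le_mul_of_nonneg_left hb hc.le
  have h5 : c * t * d / 2 ≤ c * (1 / 8 * d) := by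
    have : t * d ≤ 1 / 4 * d := mul_le_mul_of_nonneg_right ht hd
    nlinarith
  rw [div_mul_eq_mul_div, le_div_iff₀ hc]
  nlinarith [mul_nonneg hc.le hd]

/-- **CO**: covering vertices and heavy members. -/
theorem co {c t t2 t3 t4 t5 t6 MS : ℝ} {H : SimpleGraph V} {κ : Cx.{u}}
    (hX : PcD C g z θk θ' η a M S G d X) (hk : ∀ v ∈ X.Hv, InT X Ty.K v) (hζ : ∀ s, (S s).ζ ≤ 1 / 8)
    (hθk : θk ≤ 1 / 100) (hη : 0 ≤ η) (hη1 : η ≤ 1 / 100) (hc : 0 < c) (ht : t ≤ 1 / 4)
    (hS : Shr G (Bkx G X) H d (blx X) (ndx X κ) (MP_db9399_iv.box X κ) c (c * t * d / 2)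
      t2 t3 t4 t5 t6 MS)
    (hbex : ∀ b : BX X, ∃ p, MP_db9399_iv.box X κ p = some b) {x : V} (hx : x ∈ OV X)
    (hw : ¬ Ow G X d x) : (d : ℝ) ≤ 4 / c * ((nb H x \ OV X).card : ℝ) := by
  have hd : (0 : ℝ) ≤ d := Nat.cast_nonneg _
  have hx' : InO X x := by
    unfold OV at hx
    rw [mem_filter] at hx
    exact hx.2
  by_cases h0 : x ∈ X.P.V0
  · have h1 : Cov G X d x := by
      by_contra h
      exact hw ⟨h0, h⟩
    obtain ⟨n, β, -, hB, h2⟩ := h1
    have hE : X.P.ty n ≠ Ty.E := by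
      rw [hB]
      intro h
      cases h
    obtain ⟨b, hb⟩ := bx_ne (X := X) (s := β) hE
    rw [bx_iff] at hb
    refine co_aux hX.emp hc ht hS hbex hx b ?_
    have h3 := sV_ge hX hB β
    have h4 : sV X.P n β \ (sV X.P n β \ nb G x) ⊆ nb G x ∩ blk (blx X) b := by
      intro w hw'
      rw [mem_sdiff, mem_sdiff] at hw'
      obtain ⟨h5, h6⟩ := hw'
      rw [mem_inter]
      refine ⟨by_contra fun h7 => h6 ⟨h5, h7⟩, ?_⟩
      unfold sV at h5
      rw [mem_filter] at h5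
      unfold blk
      rw [mem_filter, blx_iff]
      refine ⟨mem_univ _, ?_, by rw [hb.1, h5.2.2.1], fun h7 => ?_⟩
      · rintro (h7 | h7)
        · exact h5.2.1 h7
        · have h8 := (hk w h7).2
          rw [h5.2.2.1, hB] at h8
          cases h8
      · rw [h5.2.2.1] at h7
        rw [hb.2 h7, h5.2.2.2]
    have h5 : (sV X.P n β).card - (sV X.P n β \ nb G x).card ≤ (nb G x ∩ blk (blx X) b).card := by
      refine le_trans ?_ (card_le_card h4)
      exact le_card_sdiff _ _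
    have h6 : ((sV X.P n β).card : ℝ) - (sV X.P n β \ nb G x).card ≤
        (nb G x ∩ blk (blx X) b).card := by
      have : (sV X.P n β).card ≤ (nb G x ∩ blk (blx X) b).card +
        (sV X.P n β \ nb G x).card := by omega
      have h7 : ((sV X.P n β).card : ℝ) ≤ (nb G x ∩ blk (blx X) b).card +
        (sV X.P n β \ nb G x).card := by exact_mod_cast this
      linarith
    have h7 := hζ (X.sc n)
    nlinarith
  · have h1 : x ∈ X.Hv := hx'.resolve_left h0
    have hK := (hk x h1)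
    have hE : X.P.ty (X.P.pc x) ≠ Ty.E := by
      rw [hK.2]
      intro h
      cases h
    obtain ⟨b, hb⟩ := bx_ne (X := X) (s := false) hE
    rw [bx_iff] at hb
    refine co_aux hX.emp hc ht hS hbex hx b ?_
    have h2 := hX.kd x hK
    have h3 := hX.kh _ hK.2
    have h4 := hX.kU _ hK.2
    have h5 : nb G x ∩ pV X.P (X.P.pc x) ⊆ (nb G x ∩ blk (blx X) b) ∪
        (pV X.P (X.P.pc x) ∩ X.Hv) := by
      intro w hw'
      rw [mem_inter] at hw'
      rw [mem_union, mem_inter, mem_inter]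
      by_cases h6 : w ∈ X.Hv
      · exact Or.inr ⟨hw'.2, h6⟩
      · left
        refine ⟨hw'.1, ?_⟩
        have h7 := hw'.2
        unfold pV at h7
        rw [mem_filter] at h7
        unfold blk
        rw [mem_filter, blx_iff]
        refine ⟨mem_univ _, ?_, by rw [hb.1, h7.2.2], fun h8 => ?_⟩
        · rintro (h8 | h8)
          · exact h7.2.1 h8
          · exact h6 h8
        · rw [h7.2.2, hK.2] at h8
          cases h8
    have h6 : ((nb G x ∩ pV X.P (X.P.pc x)).card : ℝ) ≤ (nb G x ∩ blk (blx X) b).card +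
        (pV X.P (X.P.pc x) ∩ X.Hv).card := by
      exact_mod_cast (card_le_card h5).trans (card_union_le _ _)
    have h7 : η * (pV X.P (X.P.pc x)).card ≤ 1 / 100 * (2 * d) := by
      refine mul_le_mul hη1 (h4.trans ?_) (Nat.cast_nonneg _) (by norm_num)
      nlinarith
    nlinarith

/-- CO from `TsX` (for OXB2, with `D κ ≤ d`) -/
theorem co_ts {πk c t CC ρ1 MS : ℝ} {D : Cx.{u} → ℕ} {H : Cx.{u} → SimpleGraph V}
    {Ex : Cx.{u} → Finset V} (h1 : 1 / 4 ≤ πk) (h2 : πk < 1 / 3)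
    (hX : PcD C g z θk θ' η a M S G d X) (hk : ∀ v ∈ X.Hv, InT X Ty.K v)
    (hζ : ∀ s, (S s).ζ ≤ 1 / 8) (hθk : θk ≤ 1 / 100) (hη : 0 ≤ η) (hη1 : η ≤ 1 / 100)
    (hc : 0 < c) (ht : t ≤ 1 / 4) (hD : ShaX πk d D) (hT : TsX c t CC ρ1 MS G d X D H Ex)
    (κ : Cx.{u}) {x : V} (hx : x ∈ OV X) (hw : ¬ Ow G X d x) :
    (D κ : ℝ) ≤ 4 / c * ((nb (H κ) x \ OV X).card : ℝ) := by
  have h3 : (D κ : ℝ) ≤ d := by exact_mod_cast (sha_lo h1 h2 hD κ).1
  exact h3.trans (co hX hk hζ hθk hη hη1 hc ht (hT.shr κ)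
    (blx_ok hX.reg hX.emp (hT.HG κ) (hT.typ κ)).bex hx hw)

end Pool.Agent.Work.MP_db9399_brx.helper75
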