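import Pool.Agent.Work.MP_db9399_brx_helper75.Blx

/-!
# MP_db9399, BRX, part 2 (helper75): sizes and degrees
-/

set_option autoImplicit false
set_option linter.unusedSectionVars false

namespace Pool.Agent.Work.MP_db9399_brx.helper75

open Finset hiding box
open Classical
open Pool.Agent.Work.MP_db9399_all (nb)
open Pool.Agent.Work.MP_db9399_da
open Pool.Agent.Work.MP_db9399_xf
open Pool.Agent.Work.MP_db9399_sg (nsd)
open Pool.Agent.Work.MP_db9399_iv
open Pool.Agent.Work.MP_db9399_clj.helper75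

universe u

variable {V : Type u} {N J : ℕ} {X : XD V N J} [Fintype V]

theorem mem_nb' (G : SimpleGraph V) (v w : V) : w ∈ nb G v ↔ G.Adj v w := by
  unfold nb
  simp

theorem mem_nsd {I : Type u} (nd : V → Option (I × Bool)) (i : I) (s : Bool) (v : V) :
    v ∈ nsd nd i s ↔ nd v = some (i, s) := by
  unfold nsd
  simp

/-- sets in a piece as sets in the subtype -/
theorem card_pc (P : Pcs V N) (n : Fin N) (A : Finset V) (B : Finset (Ts P n))
    (h : ∀ v, v ∈ A ↔ ∃ hv : v ∉ P.V0 ∧ P.pc v = n, (⟨v, hv⟩ : Ts P n) ∈ B) :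
    A.card = B.card := by
  rw [← card_map (Function.Embedding.subtype fun v => v ∉ P.V0 ∧ P.pc v = n)]
  congr 1
  ext v
  rw [mem_map, h v]
  constructor
  · rintro ⟨hv, h1⟩
    exact ⟨⟨v, hv⟩, h1, rfl⟩
  · rintro ⟨w, hw, rfl⟩
    exact ⟨w.2, hw⟩

theorem card_pV (P : Pcs V N) (n : Fin N) : (pV P n).card = Fintype.card (Ts P n) := by
  rw [← card_univ]
  refine card_pc P n _ _ fun v => ?_
  unfold pV
  rw [mem_filter]
  exact ⟨fun h => ⟨h.2, mem_univ _⟩, fun ⟨h, _⟩ => ⟨mem_univ _, h⟩⟩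

/-- the quarters in the whole graph -/
theorem card_qtr (P : Pcs V N) (n : Fin N) (s l : Bool) :
    (univ.filter fun v => (v ∉ P.V0 ∧ P.pc v = n) ∧ (P.sd v = s ∧ P.pt v = l)).card =
      (qtr (sdn P n) (ptn P n) s l).card := by
  refine card_pc P n _ _ fun v => ?_
  unfold qtr
  rw [mem_filter]
  constructor
  · rintro ⟨-, h1, h2⟩
    exact ⟨h1, mem_filter.2 ⟨mem_univ _, h2⟩⟩
  · rintro ⟨h1, h2⟩
    exact ⟨mem_univ _, h1, (mem_filter.1 h2).2⟩

/-- the cells in the whole graph -/
theorem card_cell (P : Pcs V N) (n : Fin N) (t : Fin 3) (s : Bool) :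
    (univ.filter fun v => (v ∉ P.V0 ∧ P.pc v = n) ∧ (P.th v = t ∧ P.sd v = s)).card =
      (MP_db9399_lt.cell (thn P n) (sdn P n) t s).card := by
  refine card_pc P n _ _ fun v => ?_
  unfold MP_db9399_lt.cell
  rw [mem_filter]
  constructor
  · rintro ⟨-, h1, h2⟩
    exact ⟨h1, mem_filter.2 ⟨mem_univ _, h2⟩⟩
  · rintro ⟨h1, h2⟩
    exact ⟨mem_univ _, h1, (mem_filter.1 h2).2⟩

variable {C g z θk θ' η a : ℝ} {M : ℕ} {S : Fin J → Scl} {G : SimpleGraph V} {d : ℕ}

/-- the pieces are small -/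
theorem pV_le (hX : PcD C g z θk θ' η a M S G d X) (hC : 0 ≤ C) (n : Fin N) :
    ((pV X.P n).card : ℝ) ≤ C * d := by
  by_cases h : (pV X.P n) = ∅
  · rw [h, card_empty]
    push_cast
    positivity
  · obtain ⟨v, hv⟩ := nonempty_iff_ne_empty.2 h
    unfold pV at hv
    rw [mem_filter] at hv
    obtain ⟨-, hv1, hv2⟩ := hv
    obtain ⟨k, hk⟩ := Option.ne_none_iff_exists'.1 (hX.cln v hv1)
    refine le_trans ?_ (hX.clc k)
    refine Nat.cast_le.2 (card_le_card fun w hw => ?_)
    unfold pV at hw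
    rw [mem_filter] at hw ⊢
    exact ⟨mem_univ _, by rw [hX.clp w v hw.2.1 hv1 (by rw [hw.2.2, hv2]), hk]⟩

theorem nsd_sub {κ : Cx.{u}} {i : NI.{u} N} {s : Bool} :
    nsd (ndx X κ) i s ⊆ pV X.P i.down.1 := by
  intro v hv
  rw [mem_nsd, ndx_iff] at hv
  unfold pV
  rw [mem_filter]
  exact ⟨mem_univ _, fun h => hv.1 (Or.inl (Or.inl h)), hv.2.1.symm⟩

/-- real edges at a light vertex -/
theorem real_le (hX : PcD C g z θk θ' η a M S G d X) (hη : 0 ≤ η) (hθk : θk ≤ 1)
    (hk : ∀ v ∈ X.Hv, InT X Ty.K v) {v : V} (hv : ¬ InO X v) {H : SimpleGraph V}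
    (hG : ∀ v w, H.Adj v w → G.Adj v w ∧ ¬ (Bkx G X).Adj v w) :
    ((nb H v).card : ℝ) ≤ max ((S (X.sc (X.P.pc v))).ζ * d) ((θ' + 2 * η) * d) := by
  have hv0 : v ∉ X.P.V0 := fun h => hv (Or.inl h)
  have hvH : v ∉ X.Hv := fun h => hv (Or.inr h)
  have hE := ty_ne hX.emp hv0
  by_cases hT : X.P.ty (X.P.pc v) = Ty.K
  · refine le_trans ?_ (le_max_right _ _)
    have h1 := hX.kl v ⟨⟨hv0, hT⟩, hvH⟩
    have h2 := hX.kh _ hT
    have h3 := hX.kU _ hT
    have h4 : nb H v ⊆ (nb G v \ pV X.P (X.P.pc v)) ∪ (pV X.P (X.P.pc v) ∩ X.Hv) := by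
      intro w hw
      rw [mem_nb'] at hw
      obtain ⟨h5, h6⟩ := hG v w hw
      rw [mem_union, mem_sdiff, mem_inter, mem_nb']
      by_cases h7 : w ∈ pV X.P (X.P.pc v)
      · right
        refine ⟨h7, ?_⟩
        by_contra h8
        unfold pV at h7
        rw [mem_filter] at h7
        refine h6 ⟨⟨h5, hv0, h7.2.1, h7.2.2.symm, fun h9 => ?_⟩, hv, ?_⟩
        · rw [hT] at h9
          cases h9
        · rintro (h9 | h9)
          · exact h7.2.1 h9
          · exact h8 h9
      · exact Or.inl ⟨h5, h7⟩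
    have h5 : ((nb H v).card : ℝ) ≤ (nb G v \ pV X.P (X.P.pc v)).card +
        (pV X.P (X.P.pc v) ∩ X.Hv).card := by
      exact_mod_cast (card_le_card h4).trans (card_union_le _ _)
    have h6 : ((nb G v \ pV X.P (X.P.pc v)).card : ℝ) + (nb G v ∩ pV X.P (X.P.pc v)).card = d := by
      rw [← hX.reg v]
      exact_mod_cast card_sdiff_add_card_inter _ _
    have h7 : η * (pV X.P (X.P.pc v)).card ≤ η * (2 * d) := by
      refine mul_le_mul_of_nonneg_left (h3.trans ?_) hη
      have : (0 : ℝ) ≤ d := Nat.cast_nonneg _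
      nlinarith
    nlinarith
  · refine le_trans ?_ (le_max_left _ _)
    have hNB : X.P.ty (X.P.pc v) = Ty.N ∨ X.P.ty (X.P.pc v) = Ty.B := by
      rcases h : X.P.ty (X.P.pc v) with _ | _ | _ | _
      · exact absurd h hE
      · exact absurd h hT
      · exact Or.inl rfl
      · exact Or.inr rfl
    refine le_trans (Nat.cast_le.2 (card_le_card fun w hw => ?_))
      (hX.thd v (hNB.imp (fun h => ⟨hv0, h⟩) fun h => ⟨hv0, h⟩))
    rw [mem_nb'] at hw ⊢
    obtain ⟨h5, h6⟩ := hG v w hw
    refine ⟨h5, fun h7 => h6 ⟨h7, hv, ?_⟩⟩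
    rintro (h8 | h8)
    · exact h7.2.2.1 h8
    · have h9 := (hk w h8).2
      rw [← h7.2.2.2.1] at h9
      exact hT h9

/-- the sides of the nodes are large in the blocks -/
theorem blk_le (hX : PcX C g z θk θ' η a M S G d X) (hη : 0 ≤ η) (hη1 : η ≤ 1 / 100)
    (hθk : θk ≤ 1 / 100) (hk : ∀ v ∈ X.Hv, InT X Ty.K v) {κ : Cx.{u}} {i : NI.{u} N} {s : Bool}
    {b : BX X} (hb : MP_db9399_iv.box X κ (i, s) = some b) {D : ℕ} (hD : 1 ≤ D) :
    ((blk (blx X) b).card : ℝ) ≤ 20 * D + 8 * (nsd (ndx X κ) i s).card := by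
  obtain ⟨⟨n, l⟩⟩ := i
  rw [box_iff] at hb
  obtain ⟨hu, hb1, hb2⟩ := hb
  simp only at hu hb1 hb2
  have hd0 : (0 : ℝ) ≤ d := Nat.cast_nonneg _
  have hD1 : (1 : ℝ) ≤ D := by exact_mod_cast hD
  -- the block
  have hblk : ∀ v ∈ blk (blx X) b, ¬ InO X v ∧ (v ∉ X.P.V0 ∧ X.P.pc v = n) ∧
      (X.P.ty n = Ty.B → X.P.sd v = s) := by
    intro v hv
    unfold blk at hv
    rw [mem_filter, blx_iff] at hv
    obtain ⟨-, h1, h2, h3⟩ := hv
    have h4 : X.P.pc v = n := by rw [← h2, hb1]
    refine ⟨h1, ⟨fun h => h1 (Or.inl h), h4⟩, fun h5 => ?_⟩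
    rw [← h3 (by rw [h4]; exact h5), hb2 h5]
  by_cases hK : X.P.ty n = Ty.K
  · -- type K
    have hl : l = false := by
      rcases hu with hu | hu
      · rw [hK] at hu
        rcases hu.1 with h | h <;> cases h
      · exact hu.2.2
    subst hl
    have hc := hX.kC n hK
    have hH := hX.kh n hK
    -- two cells
    obtain ⟨t1, t2, ht, ht1, ht2⟩ : ∃ t1 t2 : Fin 3, t1 ≠ t2 ∧ (∀ j, κ = Cx.C j → t1 ≠ j) ∧
        ∀ j, κ = Cx.C j → t2 ≠ j := by
      by_cases h : ∃ j, κ = Cx.C j
      · obtain ⟨j, rfl⟩ := h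
        have h1 : ∀ j' : Fin 3, Cx.C j = Cx.C.{u} j' → j = j' := fun j' h => by injection h
        fin_cases j
        · exact ⟨1, 2, by decide, fun j' h => by rw [← h1 j' h]; decide,
            fun j' h => by rw [← h1 j' h]; decide⟩
        · exact ⟨0, 2, by decide, fun j' h => by rw [← h1 j' h]; decide,
            fun j' h => by rw [← h1 j' h]; decide⟩
        · exact ⟨0, 1, by decide, fun j' h => by rw [← h1 j' h]; decide,
            fun j' h => by rw [← h1 j' h]; decide⟩
      · exact ⟨0, 1, by decide, fun j hj => absurd ⟨j, hj⟩ h, fun j hj => absurd ⟨j, hj⟩ h⟩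
    have h1 : (univ.filter fun v => (v ∉ X.P.V0 ∧ X.P.pc v = n) ∧ (X.P.th v = t1 ∧ X.P.sd v = s)) ∪
        (univ.filter fun v => (v ∉ X.P.V0 ∧ X.P.pc v = n) ∧ (X.P.th v = t2 ∧ X.P.sd v = s)) ⊆
        nsd (ndx X κ) ⟨(n, false)⟩ s ∪ (pV X.P n ∩ X.Hv) := by
      intro v hv
      have h2 : (v ∉ X.P.V0 ∧ X.P.pc v = n) ∧ (X.P.th v = t1 ∨ X.P.th v = t2) ∧ X.P.sd v = s := by
        rw [mem_union, mem_filter, mem_filter] at hv
        rcases hv with hv | hv
        · exact ⟨hv.2.1, Or.inl hv.2.2.1, hv.2.2.2⟩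
        · exact ⟨hv.2.1, Or.inr hv.2.2.1, hv.2.2.2⟩
      obtain ⟨⟨h3, h4⟩, h5, h6⟩ := h2
      rw [mem_union, mem_inter]
      by_cases h7 : v ∈ X.Hv
      · right
        refine ⟨?_, h7⟩
        unfold pV
        rw [mem_filter]
        exact ⟨mem_univ _, h3, h4⟩
      · left
        rw [mem_nsd, ndx_iff]
        refine ⟨?_, h4.symm, ?_, h6.symm⟩
        · rintro (h | ⟨j, h8, -, h9⟩ | ⟨h8, -⟩)
          · rcases h with h | h
            · exact h3 h
            · exact h7 h
          · rcases h5 with h5 | h5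
            · exact ht1 j h8 (by rw [← h5, h9])
            · exact ht2 j h8 (by rw [← h5, h9])
          · rw [h4, hK] at h8
            rcases h8 with h | h <;> cases h
        · unfold ptx
          rw [h4, if_neg]
          rw [hK]
          rintro (h | h) <;> cases h
    have h2 := (card_le_card h1).trans (card_union_le _ _)
    rw [card_union_of_disjoint, card_cell, card_cell] at h2
    · have h3 := (abs_le.1 (hc t1 s)).1
      have h4 := (abs_le.1 (hc t2 s)).1
      have h5 : ((MP_db9399_lt.cell (thn X.P n) (sdn X.P n) t1 s).card : ℝ) +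
          (MP_db9399_lt.cell (thn X.P n) (sdn X.P n) t2 s).card ≤
          (nsd (ndx X κ) ⟨(n, false)⟩ s).card + (pV X.P n ∩ X.Hv).card := by exact_mod_cast h2
      have h6 : ((blk (blx X) b).card : ℝ) ≤ (pV X.P n).card := by
        refine Nat.cast_le.2 (card_le_card fun v hv => ?_)
        have h7 := hblk v hv
        unfold pV
        rw [mem_filter]
        exact ⟨mem_univ _, h7.2.1⟩
      rw [← card_pV] at h3 h4
      have h7 := hX.kL n hK
      have h8 : η * (pV X.P n).card ≤ 1 / 100 * (pV X.P n).card :=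
        mul_le_mul_of_nonneg_right hη1 (Nat.cast_nonneg _)
      have h9 : η * d ≤ 1 / 100 * d := mul_le_mul_of_nonneg_right hη1 hd0
      have h10 : (1 - 1 / 100) * (d : ℝ) ≤ (pV X.P n).card := by nlinarith
      nlinarith
    · rw [Finset.disjoint_left]
      intro v hv hv'
      rw [mem_filter] at hv hv'
      exact ht (by rw [← hv.2.2.1, hv'.2.2.1])
  · by_cases hNB : X.P.ty n = Ty.N ∨ X.P.ty n = Ty.B
    · have hl : κ ≠ Cx.Q l := by
        rcases hu with hu | hu
        · exact hu.2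
        · rcases hNB with h | h
          · exact absurd h hu.1
          · exact absurd h hu.2.1
      have hnH : ∀ v, X.P.pc v = n → v ∉ X.Hv := by
        intro v hv h
        have := (hk v h).2
        rw [hv] at this
        exact hK this
      have hq : ∀ l', l' = l → (qtr (sdn X.P n) (ptn X.P n) s l').card ≤
          (nsd (ndx X κ) ⟨(n, l)⟩ s).card := by
        rintro l' rfl
        rw [← card_qtr]
        refine card_le_card fun v hv => ?_
        rw [mem_filter] at hv
        obtain ⟨-, ⟨h3, h4⟩, h5, h6⟩ := hv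
        rw [mem_nsd, ndx_iff]
        refine ⟨?_, h4.symm, ?_, h5.symm⟩
        · rintro (h | ⟨j, -, h8, -⟩ | ⟨-, h8⟩)
          · rcases h with h | h
            · exact h3 h
            · exact hnH v h4 h
          · rw [h4] at h8
            exact hK h8
          · rw [h6] at h8
            exact hl h8
        · unfold ptx
          rw [h4, if_pos hNB]
          exact h6.symm
      have hq1 := hq l rfl
      have hq2 : ((qtr (sdn X.P n) (ptn X.P n) s l).card : ℝ) ≤
          (nsd (ndx X κ) ⟨(n, l)⟩ s).card := by exact_mod_cast hq1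
      rcases hNB with hN | hB
      · have h1 := hX.nS n hN s l
        have h2 : ((blk (blx X) b).card : ℝ) ≤ (pV X.P n).card := by
          refine Nat.cast_le.2 (card_le_card fun v hv => ?_)
          have h7 := hblk v hv
          unfold pV
          rw [mem_filter]
          exact ⟨mem_univ _, h7.2.1⟩
        rw [← card_pV] at h1
        have h3 : 4 * ((qtr (sdn X.P n) (ptn X.P n) s l).card : ℝ) = (pV X.P n).card := by
          exact_mod_cast h1
        have h4 : (0 : ℝ) ≤ (nsd (ndx X κ) ⟨(n, l)⟩ s).card := Nat.cast_nonneg _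
        linarith
      · have h1 : (qtr (sdn X.P n) (ptn X.P n) s (!l)).card ≤
            (qtr (sdn X.P n) (ptn X.P n) s l).card + 1 := by
          have h2 := hX.bB n hB
          have h3 := hX.bS n hB (!l)
          rw [Bool.not_not] at h3
          cases s
          · exact h3
          · rw [← h2, ← h2]
            exact h3
        have h2 : (blk (blx X) b).card ≤ (qtr (sdn X.P n) (ptn X.P n) s (!l)).card +
            (qtr (sdn X.P n) (ptn X.P n) s l).card := by
          rw [← card_qtr, ← card_qtr]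
          refine le_trans (card_le_card fun v hv => ?_) (card_union_le _ _)
          obtain ⟨-, h4, h5⟩ := hblk v hv
          rw [mem_union, mem_filter, mem_filter]
          by_cases h6 : X.P.pt v = l
          · exact Or.inr ⟨mem_univ _, h4, h5 hB, h6⟩
          · refine Or.inl ⟨mem_univ _, h4, h5 hB, ?_⟩
            revert h6
            cases X.P.pt v <;> cases l <;> simp
        have h3 : ((blk (blx X) b).card : ℝ) ≤ (qtr (sdn X.P n) (ptn X.P n) s (!l)).card +
            (qtr (sdn X.P n) (ptn X.P n) s l).card := by exact_mod_cast h2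
        have h4 : ((qtr (sdn X.P n) (ptn X.P n) s (!l)).card : ℝ) ≤
            (qtr (sdn X.P n) (ptn X.P n) s l).card + 1 := by exact_mod_cast h1
        have h5 : (0 : ℝ) ≤ (nsd (ndx X κ) ⟨(n, l)⟩ s).card := Nat.cast_nonneg _
        linarith
    · have hE : X.P.ty n = Ty.E := by
        rcases h : X.P.ty n with _ | _ | _ | _
        · rfl
        · exact absurd h hK
        · exact absurd (Or.inl h) hNB
        · exact absurd (Or.inr h) hNB
      exact absurd (by rw [hb1]; exact hE) b.down.2.1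

end Pool.Agent.Work.MP_db9399_brx.helper75
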